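import Pool.Agent.ZGO.StmtsA

set_option autoImplicit false

/-!
ZGO, row SRG: a surjection of a proper subgroup of finite index onto a finitely generated group
(adapted from row SRT of ZTO, helper70).
-/

namespace Pool.Agent.ZGO.H45

open Pool.Agent.H50.CIG
open Pool.Agent.ZGO

variable {G : Type} [Group G]

theorem fc_conj (g x : G) (hx : x ∈ fc G) : g * x * g⁻¹ ∈ fc G := by
  have hx' : (Subgroup.centralizer {x}).FiniteIndex := hx
  show (Subgroup.centralizer {g * x * g⁻¹}).FiniteIndex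
  apply finiteIndex_of_fun (α := G ⧸ Subgroup.centralizer {x}) _
    fun a => ((g⁻¹ * a * g : G) : G ⧸ Subgroup.centralizer {x})
  intro a b hab
  rw [QuotientGroup.eq, Subgroup.mem_centralizer_iff] at hab
  have h1 := hab x rfl
  rw [Subgroup.mem_centralizer_iff]
  rintro _ rfl
  calc g * x * g⁻¹ * (a⁻¹ * b) = g * (x * ((g⁻¹ * a * g)⁻¹ * (g⁻¹ * b * g))) * g⁻¹ := by group
    _ = g * ((g⁻¹ * a * g)⁻¹ * (g⁻¹ * b * g) * x) * g⁻¹ := by rw [h1]
    _ = a⁻¹ * b * (g * x * g⁻¹) := by group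

theorem ci_of_order (g : G) (hg : ¬ IsOfFinOrder g) : CI G := by
  have h1 : ((Subgroup.zpowers g : Subgroup G) : Set G).Infinite := by
    intro hfin
    apply hg
    exact finite_zpowers.mp hfin
  refine ⟨Subgroup.zpowers g, Subgroup.zpowers g, h1, h1, ?_⟩
  intro a ha b hb
  obtain ⟨m, rfl⟩ := Subgroup.mem_zpowers_iff.mp ha
  obtain ⟨n, rfl⟩ := Subgroup.mem_zpowers_iff.mp hb
  rw [← zpow_add, ← zpow_add, add_comm]

/-- SRG -/
theorem srg (zgn : ZgnStmt) : SrgStmt := by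
  intro G _ _ _ H φ hHf hHt hφ hN
  by_contra hCI
  -- the kernel as a subgroup of `G`
  let Kr : Subgroup G := φ.ker.map H.subtype
  have mKr : ∀ x : G, x ∈ Kr ↔ ∃ hx : x ∈ H, φ ⟨x, hx⟩ = 1 := by
    intro x
    constructor
    · rintro ⟨y, hy, rfl⟩
      exact ⟨y.2, hy⟩
    · rintro ⟨hx, h1⟩
      exact ⟨⟨x, hx⟩, h1, rfl⟩
  have cKr : ∀ h ∈ H, ∀ k ∈ Kr, h * k * h⁻¹ ∈ Kr := by
    intro h hh k hk
    obtain ⟨hk1, hk2⟩ := (mKr k).mp hk
    refine (mKr _).mpr ⟨H.mul_mem (H.mul_mem hh hk1) (H.inv_mem hh), ?_⟩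
    have h1 : (⟨h * k * h⁻¹, H.mul_mem (H.mul_mem hh hk1) (H.inv_mem hh)⟩ : H) =
        ⟨h, hh⟩ * ⟨k, hk1⟩ * ⟨h, hh⟩⁻¹ := rfl
    rw [h1, map_mul, map_mul, hk2, mul_one, map_inv, mul_inv_cancel]
  -- the conjugates
  let HH : G ⧸ H → Subgroup G := fun q => H.map (MulAut.conj q.out).toMonoidHom
  let KK : G ⧸ H → Subgroup G := fun q => Kr.map (MulAut.conj q.out).toMonoidHom
  have mHH : ∀ q x, x ∈ HH q ↔ (q.out)⁻¹ * x * q.out ∈ H := by
    intro q x
    constructor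
    · rintro ⟨y, hy, rfl⟩
      have : (q.out)⁻¹ * ((MulAut.conj q.out).toMonoidHom y) * q.out = y := by
        show (q.out)⁻¹ * (q.out * y * (q.out)⁻¹) * q.out = y
        group
      rw [this]
      exact hy
    · intro hx
      refine ⟨_, hx, ?_⟩
      show q.out * ((q.out)⁻¹ * x * q.out) * (q.out)⁻¹ = x
      group
  have mKK : ∀ q x, x ∈ KK q ↔ (q.out)⁻¹ * x * q.out ∈ Kr := by
    intro q x
    constructor
    · rintro ⟨y, hy, rfl⟩
      have : (q.out)⁻¹ * ((MulAut.conj q.out).toMonoidHom y) * q.out = y := by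
        show (q.out)⁻¹ * (q.out * y * (q.out)⁻¹) * q.out = y
        group
      rw [this]
      exact hy
    · intro hx
      refine ⟨_, hx, ?_⟩
      show q.out * ((q.out)⁻¹ * x * q.out) * (q.out)⁻¹ = x
      group
  have hHH : ∀ q, (HH q).FiniteIndex := by
    intro q
    apply finiteIndex_of_fun (α := G ⧸ H) _ fun a => (((q.out)⁻¹ * a * q.out : G) : G ⧸ H)
    intro a b hab
    rw [QuotientGroup.eq] at hab
    rw [mHH]
    have : (q.out)⁻¹ * (a⁻¹ * b) * q.out = ((q.out)⁻¹ * a * q.out)⁻¹ * ((q.out)⁻¹ * b * q.out) := by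
      group
    rw [this]
    exact hab
  have hn : ∀ q, ∀ h ∈ HH q, ∀ k ∈ KK q, h * k * h⁻¹ ∈ KK q := by
    intro q h hh k hk
    rw [mHH] at hh
    rw [mKK] at hk ⊢
    have h1 := cKr _ hh _ hk
    have h2 : (q.out)⁻¹ * h * q.out * ((q.out)⁻¹ * k * q.out) * ((q.out)⁻¹ * h * q.out)⁻¹ =
        (q.out)⁻¹ * (h * k * h⁻¹) * q.out := by group
    rw [h2] at h1
    exact h1
  let N : Subgroup G := ⨅ q, KK q
  have mN : ∀ x, x ∈ N ↔ ∀ g : G, g⁻¹ * x * g ∈ Kr := by
    intro x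
    constructor
    · intro hx g
      have h1 : x ∈ KK (g : G ⧸ H) := (Subgroup.mem_iInf.mp hx) _
      rw [mKK] at h1
      obtain ⟨h, hh⟩ := QuotientGroup.mk_out_eq_mul H g
      have h2 := cKr _ h.2 _ h1
      have h3 : (h : G) * (((g : G ⧸ H).out)⁻¹ * x * (g : G ⧸ H).out) * (h : G)⁻¹ = g⁻¹ * x * g := by
        rw [hh]
        group
      rw [h3] at h2
      exact h2
    · intro hx
      refine Subgroup.mem_iInf.mpr fun q => ?_
      rw [mKK]
      exact hx _
  have hNn : N.Normal := by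
    constructor
    intro n hn g
    rw [mN] at hn ⊢
    intro a
    have h1 := hn (g⁻¹ * a)
    have h2 : (g⁻¹ * a)⁻¹ * n * (g⁻¹ * a) = a⁻¹ * (g * n * g⁻¹) * a := by group
    rw [h2] at h1
    exact h1
  have hNf : (N : Set G).Finite := by
    apply hN N hNn
    intro y hy
    have h1 := (mN y).mp hy 1
    have h2 : (1 : G)⁻¹ * y * 1 = y := by group
    rw [h2] at h1
    exact (mKr y).mp h1
  have : Finite (G ⧸ H) := Subgroup.finite_quotient_of_finiteIndex
  obtain ⟨q, hq⟩ := exists_le_fc hCI HH KK hHH hn hNf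
  have hfc := fc_finite hCI
  have hKf : (Kr : Set G).Finite := by
    have h1 : (KK q : Set G).Finite := hfc.subset hq
    refine (h1.preimage (f := fun x : G => q.out * x * (q.out)⁻¹) ?_).subset ?_
    · intro a _ b _ hab
      have h2 : q.out * a * (q.out)⁻¹ = q.out * b * (q.out)⁻¹ := hab
      exact mul_left_cancel (mul_right_cancel h2)
    · intro x hx
      show q.out * x * (q.out)⁻¹ ∈ KK q
      rw [mKK]
      have h2 : (q.out)⁻¹ * (q.out * x * (q.out)⁻¹) * q.out = x := by group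
      rw [h2]
      exact hx
  -- the preimage of the FC-centre
  let P : Subgroup G := ((fc G).comap φ).map H.subtype
  have mP : ∀ x : G, x ∈ P ↔ ∃ hx : x ∈ H, φ ⟨x, hx⟩ ∈ fc G := by
    intro x
    constructor
    · rintro ⟨y, hy, rfl⟩
      exact ⟨y.2, hy⟩
    · rintro ⟨hx, h1⟩
      exact ⟨⟨x, hx⟩, h1, rfl⟩
  have : Finite (fc G) := hfc
  have : Finite Kr := hKf
  have hPf : (P : Set G).Finite := by
    have : Finite P := by
      choose s hs using hφ
      have h0 : ∀ x : P, ((x : G) * ((s (φ ⟨x, ((mP x).mp x.2).1⟩) : H) : G)⁻¹) ∈ Kr := by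
        intro x
        obtain ⟨hx1, hx2⟩ := (mP x).mp x.2
        refine (mKr _).mpr ⟨H.mul_mem hx1 (H.inv_mem (s _).2), ?_⟩
        have h1 : (⟨(x : G) * ((s (φ ⟨x, hx1⟩) : H) : G)⁻¹, H.mul_mem hx1 (H.inv_mem (s _).2)⟩ : H) =
            ⟨x, hx1⟩ * (s (φ ⟨x, hx1⟩))⁻¹ := rfl
        rw [h1, map_mul, map_inv, hs, mul_inv_cancel]
      refine Finite.of_injective (fun x : P => ((⟨φ ⟨x, ((mP x).mp x.2).1⟩, ((mP x).mp x.2).2⟩,
        ⟨_, h0 x⟩) : fc G × Kr)) ?_
      intro x y hxy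
      have h1 := congrArg Prod.fst hxy
      have h2 := congrArg Prod.snd hxy
      have h3 : φ ⟨x, ((mP x).mp x.2).1⟩ = φ ⟨y, ((mP y).mp y.2).1⟩ := congrArg Subtype.val h1
      have h4 : (x : G) * ((s (φ ⟨x, ((mP x).mp x.2).1⟩) : H) : G)⁻¹ =
          (y : G) * ((s (φ ⟨y, ((mP y).mp y.2).1⟩) : H) : G)⁻¹ := congrArg Subtype.val h2
      rw [h3] at h4
      exact Subtype.ext (mul_right_cancel h4)
    exact Set.toFinite _
  have hPfc : P ≤ fc G := by
    apply le_fc H P hPf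
    intro h hh k hk
    obtain ⟨hk1, hk2⟩ := (mP k).mp hk
    refine (mP _).mpr ⟨H.mul_mem (H.mul_mem hh hk1) (H.inv_mem hh), ?_⟩
    have h1 : (⟨h * k * h⁻¹, H.mul_mem (H.mul_mem hh hk1) (H.inv_mem hh)⟩ : H) =
        ⟨h, hh⟩ * ⟨k, hk1⟩ * ⟨h, hh⟩⁻¹ := rfl
    rw [h1, map_mul, map_mul, map_inv]
    exact fc_conj _ _ hk2
  have hinj : Function.Injective φ := by
    have : Finite P := hPf
    let f : P → fc G := fun x => ⟨φ ⟨x, ((mP x).mp x.2).1⟩, ((mP x).mp x.2).2⟩
    have hf : Function.Surjective f := by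
      intro y
      obtain ⟨h, hh⟩ := hφ (y : G)
      have h1 : (h : G) ∈ P := (mP _).mpr ⟨h.2, by rw [show (⟨(h : G), h.2⟩ : H) = h from rfl, hh]; exact y.2⟩
      refine ⟨⟨h, h1⟩, ?_⟩
      apply Subtype.ext
      exact hh
    have hc : Nat.card P ≤ Nat.card (fc G) :=
      Nat.card_le_card_of_injective (Subgroup.inclusion hPfc) (Subgroup.inclusion_injective hPfc)
    have hb : Function.Bijective f := hf.bijective_of_nat_card_le hc
    rw [injective_iff_map_eq_one]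
    intro a ha
    have h1 : (a : G) ∈ P := (mP _).mpr ⟨a.2, by
      rw [show (⟨(a : G), a.2⟩ : H) = a from rfl, ha]
      exact (fc G).one_mem⟩
    have h2 : (⟨(a : G), h1⟩ : P) = 1 := by
      apply hb.1
      apply Subtype.ext
      show φ ⟨(a : G), _⟩ = φ ⟨((1 : P) : G), _⟩
      rw [show (⟨(a : G), a.2⟩ : H) = a from rfl, ha]
      exact (map_one φ).symm
    have h3 := congrArg Subtype.val h2
    exact Subtype.ext h3
  let e : H ≃* G := MulEquiv.ofBijective φ ⟨hinj, hφ⟩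
  let ψ : G →* G := H.subtype.comp e.symm.toMonoidHom
  have hψ : Function.Injective ψ := Subtype.val_injective.comp e.symm.injective
  have hr : ψ.range = H := by
    ext x
    constructor
    · rintro ⟨y, rfl⟩
      exact (e.symm y).2
    · intro hx
      refine ⟨e ⟨x, hx⟩, ?_⟩
      show ((e.symm (e ⟨x, hx⟩) : H) : G) = x
      rw [e.symm_apply_apply]
  apply hHt
  rw [← hr]
  apply zgn G _ ψ hψ
  · rw [hr]
    exact hHf
  · intro g
    by_contra hg
    exact hCI (ci_of_order g hg)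

end Pool.Agent.ZGO.H45
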