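import Pool.Agent.ZGO.StmtsA

/-!
# ZGO, row SRS: two isomorphic sections on two levels

A generalisation of row SRG: two homomorphisms `α : D →* Q`, `β : D' →* Q` onto the same group, where
`D' < D` are different subgroups of finite index and the kernel of `α` is inside the kernel of `β`.
-/

set_option autoImplicit false

namespace Pool.Agent.ZGO.H45

open Pool.Agent.ZGO
open Pool.Agent.H50.CIG

/-- a homomorphism from a subgroup of finite index has a finite kernel if the normal subgroups of `G`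
inside the kernel are finite -/
theorem ker_fin {G : Type} [Group G] [Infinite G] (hCI : ¬ CI G) (H : Subgroup G)
    [H.FiniteIndex] {Q : Type} [Group Q] (φ : H →* Q)
    (hN : ∀ N : Subgroup G, N.Normal → (∀ y ∈ N, ∃ hy : y ∈ H, φ ⟨y, hy⟩ = 1) →
      (N : Set G).Finite) : {x : H | φ x = 1}.Finite := by
  let Kr : Subgroup G := φ.ker.map H.subtype
  have mKr : ∀ x : G, x ∈ Kr ↔ ∃ hx : x ∈ H, φ ⟨x, hx⟩ = 1 := by
    intro x
    constructor
    · rintro ⟨y, hy, rfl⟩
      exact ⟨y.2, hy⟩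
    · rintro ⟨hx, h1⟩
      exact ⟨⟨x, hx⟩, h1, rfl⟩
  have cKr : ∀ h ∈ H, ∀ k ∈ Kr, h * k * h⁻¹ ∈ Kr := by
    intro h hh k hk
    obtain ⟨hk1, hk2⟩ := (mKr k).mp hk
    refine (mKr _).mpr ⟨H.mul_mem (H.mul_mem hh hk1) (H.inv_mem hh), ?_⟩
    have h1 : (⟨h * k * h⁻¹, H.mul_mem (H.mul_mem hh hk1) (H.inv_mem hh)⟩ : H) =
        ⟨h, hh⟩ * ⟨k, hk1⟩ * ⟨h, hh⟩⁻¹ := rfl
    rw [h1, map_mul, map_mul, hk2, mul_one, map_inv, mul_inv_cancel]
  let HH : G ⧸ H → Subgroup G := fun q => H.map (MulAut.conj q.out).toMonoidHom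
  let KK : G ⧸ H → Subgroup G := fun q => Kr.map (MulAut.conj q.out).toMonoidHom
  have mm : ∀ (T : Subgroup G) (q : G ⧸ H) x,
      x ∈ T.map (MulAut.conj q.out).toMonoidHom ↔ (q.out)⁻¹ * x * q.out ∈ T := by
    intro T q x
    constructor
    · rintro ⟨y, hy, rfl⟩
      have : (q.out)⁻¹ * ((MulAut.conj q.out).toMonoidHom y) * q.out = y := by
        show (q.out)⁻¹ * (q.out * y * (q.out)⁻¹) * q.out = y
        group
      rw [this]
      exact hy
    · intro hx
      refine ⟨_, hx, ?_⟩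
      show q.out * ((q.out)⁻¹ * x * q.out) * (q.out)⁻¹ = x
      group
  have hfq : Finite (G ⧸ H) := Subgroup.finite_quotient_of_finiteIndex
  have hHH : ∀ q, (HH q).FiniteIndex := by
    intro q
    apply finiteIndex_of_fun (α := G ⧸ H) _ fun a => (((q.out)⁻¹ * a * q.out : G) : G ⧸ H)
    intro a b hab
    rw [QuotientGroup.eq] at hab
    refine (mm H q _).mpr ?_
    have : (q.out)⁻¹ * (a⁻¹ * b) * q.out = ((q.out)⁻¹ * a * q.out)⁻¹ * ((q.out)⁻¹ * b * q.out) := by
      group
    rw [this]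
    exact hab
  have hn : ∀ q, ∀ h ∈ HH q, ∀ k ∈ KK q, h * k * h⁻¹ ∈ KK q := by
    intro q h hh k hk
    have hh' := (mm H q h).mp hh
    have hk' := (mm Kr q k).mp hk
    refine (mm Kr q _).mpr ?_
    have h1 := cKr _ hh' _ hk'
    have h2 : (q.out)⁻¹ * h * q.out * ((q.out)⁻¹ * k * q.out) * ((q.out)⁻¹ * h * q.out)⁻¹ =
        (q.out)⁻¹ * (h * k * h⁻¹) * q.out := by group
    rw [h2] at h1
    exact h1
  let N : Subgroup G := ⨅ q, KK q
  have mN : ∀ x, x ∈ N ↔ ∀ g : G, g⁻¹ * x * g ∈ Kr := by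
    intro x
    constructor
    · intro hx g
      have h1 : x ∈ KK (g : G ⧸ H) := (Subgroup.mem_iInf.mp hx) _
      have h1' := (mm Kr _ x).mp h1
      obtain ⟨h, hh⟩ := QuotientGroup.mk_out_eq_mul H g
      have h2 := cKr _ h.2 _ h1'
      have h3 : (h : G) * (((g : G ⧸ H).out)⁻¹ * x * (g : G ⧸ H).out) * (h : G)⁻¹ = g⁻¹ * x * g := by
        rw [hh]
        group
      rw [h3] at h2
      exact h2
    · intro hx
      refine Subgroup.mem_iInf.mpr fun q => ?_
      exact (mm Kr q x).mpr (hx _)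
  have hNn : N.Normal := by
    constructor
    intro n hn g
    rw [mN] at hn ⊢
    intro a
    have h1 := hn (g⁻¹ * a)
    have h2 : (g⁻¹ * a)⁻¹ * n * (g⁻¹ * a) = a⁻¹ * (g * n * g⁻¹) * a := by group
    rw [h2] at h1
    exact h1
  have hNf : (N : Set G).Finite := by
    apply hN N hNn
    intro y hy
    have h1 := (mN y).mp hy 1
    have h2 : (1 : G)⁻¹ * y * 1 = y := by group
    rw [h2] at h1
    exact (mKr y).mp h1
  obtain ⟨q, hq⟩ := exists_le_fc hCI HH KK hHH hn hNf
  have hfc := fc_finite hCI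
  have hKf : (Kr : Set G).Finite := by
    have h1 : (KK q : Set G).Finite := hfc.subset hq
    refine (h1.preimage (f := fun x : G => q.out * x * (q.out)⁻¹) ?_).subset ?_
    · intro a _ b _ hab
      have h2 : q.out * a * (q.out)⁻¹ = q.out * b * (q.out)⁻¹ := hab
      exact mul_left_cancel (mul_right_cancel h2)
    · intro x hx
      show q.out * x * (q.out)⁻¹ ∈ KK q
      refine (mm Kr q _).mpr ?_
      have h2 : (q.out)⁻¹ * (q.out * x * (q.out)⁻¹) * q.out = x := by group
      rw [h2]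
      exact hx
  refine (hKf.preimage (f := fun x : H => (x : G)) (Subtype.val_injective.injOn)).subset ?_
  intro x hx
  exact (mKr x).mpr ⟨x.2, hx⟩

/-- a subgroup of finite relative index in an infinite group meets it in an infinite group -/
theorem inf_of_rel {G : Type} [Group G] (B T : Subgroup G) (hB : (B : Set G).Infinite)
    (hT : T.relIndex B ≠ 0) : ((B ⊓ T : Subgroup G) : Set G).Infinite := by
  intro hfin
  have : Finite (T.subgroupOf B) := by
    have h1 : Finite ((B ⊓ T : Subgroup G) : Set G) := hfin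
    refine Finite.of_injective
      (fun x : T.subgroupOf B => (⟨x.1.1, ⟨x.1.2, x.2⟩⟩ : ((B ⊓ T : Subgroup G) : Set G))) ?_
    intro x y hxy
    apply Subtype.ext
    apply Subtype.ext
    have h0 := congrArg Subtype.val hxy
    exact h0
  have h3 : (T.subgroupOf B).FiniteIndex := ⟨hT⟩
  have h2 : Finite B := finite_of_finiteIndex (T.subgroupOf B)
  exact hB (Set.toFinite (B : Set G))

/-- an element of `B` outside a finite set which commutes with a finite set -/
theorem pick {G : Type} [Group G] (B : Subgroup G) (hB : (B : Set G).Infinite) (s : Finset G)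
    (hs : ∀ x ∈ s, (Subgroup.centralizer {x}).relIndex B ≠ 0) (E : Finset G) :
    ∃ b ∈ B, b ∉ E ∧ ∀ x ∈ s, x * b = b * x := by
  classical
  have key : ∃ T : Subgroup G, T.relIndex B ≠ 0 ∧ ∀ t ∈ T, ∀ x ∈ s, x * t = t * x := by
    induction s using Finset.induction_on with
    | empty =>
      refine ⟨⊤, ?_, ?_⟩
      · simp
      · intro t _ x hx
        simp at hx
    | insert a s ha ih =>
      obtain ⟨T, hT1, hT2⟩ := ih (fun x hx => hs x (Finset.mem_insert_of_mem hx))
      refine ⟨Subgroup.centralizer {a} ⊓ T,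
        Subgroup.relIndex_inf_ne_zero (hs a (Finset.mem_insert_self a s)) hT1, ?_⟩
      intro t ht x hx
      rcases Finset.mem_insert.mp hx with rfl | hx
      · exact (Subgroup.mem_centralizer_iff.mp ht.1) _ rfl
      · exact hT2 t ht.2 x hx
  obtain ⟨T, hT1, hT2⟩ := key
  obtain ⟨b, hb1, hb2⟩ := (inf_of_rel B T hB hT1).exists_notMem_finset E
  exact ⟨b, hb1.1, hb2, fun x hx => hT2 b hb1.2 x hx⟩

/-- infinite subgroups such that centralizers of elements of one have finite index in the other -/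
theorem ci_of_rel {G : Type} [Group G] (A B : Subgroup G) (hA : (A : Set G).Infinite)
    (hB : (B : Set G).Infinite) (h1 : ∀ a ∈ A, (Subgroup.centralizer {a}).relIndex B ≠ 0)
    (h2 : ∀ b ∈ B, (Subgroup.centralizer {b}).relIndex A ≠ 0) : CI G := by
  classical
  obtain ⟨f, hf1, hf2⟩ := exists_seq_of_forall_finset_exists
    (fun x : G × G => x.1 ∈ A ∧ x.2 ∈ B ∧ x.1 * x.2 = x.2 * x.1)
    (fun x y : G × G => x.1 ≠ y.1 ∧ x.2 ≠ y.2 ∧ x.1 * y.2 = y.2 * x.1 ∧ y.1 * x.2 = x.2 * y.1)
    (by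
      intro s hs
      obtain ⟨a, ha1, ha2, ha3⟩ := pick A hA (s.image Prod.snd) (by
        intro x hx
        obtain ⟨y, hy, rfl⟩ := Finset.mem_image.mp hx
        exact h2 _ (hs y hy).2.1) (s.image Prod.fst)
      obtain ⟨b, hb1, hb2, hb3⟩ := pick B hB (insert a (s.image Prod.fst)) (by
        intro x hx
        rcases Finset.mem_insert.mp hx with rfl | hx
        · exact h1 _ ha1
        · obtain ⟨y, hy, rfl⟩ := Finset.mem_image.mp hx
          exact h1 _ (hs y hy).1) (s.image Prod.snd)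
      refine ⟨(a, b), ⟨ha1, hb1, hb3 a (Finset.mem_insert_self _ _)⟩, ?_⟩
      intro x hx
      refine ⟨?_, ?_, ?_, ?_⟩
      · intro h
        exact ha2 (Finset.mem_image.mpr ⟨x, hx, h⟩)
      · intro h
        exact hb2 (Finset.mem_image.mpr ⟨x, hx, h⟩)
      · exact hb3 x.1 (Finset.mem_insert_of_mem (Finset.mem_image.mpr ⟨x, hx, rfl⟩))
      · exact (ha3 x.2 (Finset.mem_image.mpr ⟨x, hx, rfl⟩)).symm)
  have hcomm : ∀ m n, (f m).1 * (f n).2 = (f n).2 * (f m).1 := by
    intro m n
    rcases lt_trichotomy m n with h | h | h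
    · exact (hf2 m n h).2.2.1
    · rw [h]
      exact (hf1 n).2.2
    · exact (hf2 n m h).2.2.2
  have hi1 : Function.Injective fun n => (f n).1 := by
    intro m n hmn
    rcases lt_trichotomy m n with h | h | h
    · exact absurd hmn (hf2 m n h).1
    · exact h
    · exact absurd hmn.symm (hf2 n m h).1
  have hi2 : Function.Injective fun n => (f n).2 := by
    intro m n hmn
    rcases lt_trichotomy m n with h | h | h
    · exact absurd hmn (hf2 m n h).2.1
    · exact h
    · exact absurd hmn.symm (hf2 n m h).2.1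
  let S : Set G := Set.range fun n => (f n).2
  refine ⟨Subgroup.centralizer S, Subgroup.centralizer (Subgroup.centralizer S : Set G), ?_, ?_, ?_⟩
  · refine (Set.infinite_range_of_injective hi1).mono ?_
    rintro _ ⟨m, rfl⟩
    refine Subgroup.mem_centralizer_iff.mpr ?_
    rintro _ ⟨n, rfl⟩
    exact (hcomm m n).symm
  · refine (Set.infinite_range_of_injective hi2).mono ?_
    rintro _ ⟨n, rfl⟩
    refine Subgroup.mem_centralizer_iff.mpr ?_
    intro y hy
    exact ((Subgroup.mem_centralizer_iff.mp hy) _ ⟨n, rfl⟩).symm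
  · intro a ha b hb
    exact (Subgroup.mem_centralizer_iff.mp hb) a ha

/-- two infinite commuting subgroups lift through a finite kernel -/
theorem ci_lift {D Q : Type} [Group D] [Group Q] (f : D →* Q) (hf : Function.Surjective f)
    (hk : {x : D | f x = 1}.Finite) (h : CI Q) : CI D := by
  obtain ⟨A, B, hA, hB, hAB⟩ := h
  have hinf : ∀ T : Subgroup Q, (T : Set Q).Infinite → ((T.comap f : Subgroup D) : Set D).Infinite := by
    intro T hT hfin
    apply hT
    refine (hfin.image f).subset ?_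
    intro y hy
    obtain ⟨x, rfl⟩ := hf y
    exact ⟨x, hy, rfl⟩
  have hrel : ∀ (T : Subgroup D) (a : D), (∀ t ∈ T, f a * f t = f t * f a) →
      (Subgroup.centralizer {a}).relIndex T ≠ 0 := by
    intro T a ht
    have : Finite {x : D | f x = 1} := hk
    have h1 : ((Subgroup.centralizer {a}).subgroupOf T).FiniteIndex := by
      apply finiteIndex_of_fun (α := {x : D | f x = 1}) _ fun t : T =>
        (⟨a * t * a⁻¹ * (t : D)⁻¹, by
          show f (a * t * a⁻¹ * (t : D)⁻¹) = 1
          rw [map_mul, map_mul, map_mul, map_inv, map_inv, ht t t.2]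
          group⟩ : {x : D | f x = 1})
      intro s t hst
      have h2 : a * (s : D) * a⁻¹ * (s : D)⁻¹ = a * (t : D) * a⁻¹ * (t : D)⁻¹ :=
        congrArg Subtype.val hst
      rw [Subgroup.mem_subgroupOf]
      refine Subgroup.mem_centralizer_iff.mpr ?_
      intro y hy
      have hy' : y = a := hy
      rw [hy']
      have h3 : (s : D) * a⁻¹ * (s : D)⁻¹ = (t : D) * a⁻¹ * (t : D)⁻¹ := by
        have h4 : a * ((s : D) * a⁻¹ * (s : D)⁻¹) = a * ((t : D) * a⁻¹ * (t : D)⁻¹) := by
          simpa only [mul_assoc] using h2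
        exact mul_left_cancel h4
      have h5 : ((s : D) * a⁻¹ * (s : D)⁻¹)⁻¹ = ((t : D) * a⁻¹ * (t : D)⁻¹)⁻¹ := by rw [h3]
      have h6 : (s : D) * a * (s : D)⁻¹ = (t : D) * a * (t : D)⁻¹ := by
        simpa only [mul_inv_rev, inv_inv, mul_assoc] using h5
      show a * ((s : D)⁻¹ * (t : D)) = (s : D)⁻¹ * (t : D) * a
      calc a * ((s : D)⁻¹ * (t : D)) = (s : D)⁻¹ * ((s : D) * a * (s : D)⁻¹) * (t : D) := by group
        _ = (s : D)⁻¹ * ((t : D) * a * (t : D)⁻¹) * (t : D) := by rw [h6]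
        _ = (s : D)⁻¹ * (t : D) * a := by group
    exact h1.index_ne_zero
  refine ci_of_rel (A.comap f) (B.comap f) (hinf A hA) (hinf B hB) ?_ ?_
  · intro a ha
    exact hrel _ a fun t ht => hAB _ ha _ ht
  · intro b hb
    exact hrel _ b fun t ht => (hAB _ ht _ hb).symm

/-- SRS -/
def SrsStmt : Prop := ∀ (G : Type) [Group G] [Group.FG G] [Infinite G] (D D' : Subgroup G)
  (Q : Type) [Group Q] (α : D →* Q) (β : D' →* Q), D'.FiniteIndex → D' ≤ D → D' ≠ D →
  Function.Surjective α → Function.Surjective β →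
  (∀ g : D, α g = 1 → ∃ h : (g : G) ∈ D', β ⟨g, h⟩ = 1) →
  (∀ N : Subgroup G, N.Normal → (∀ y ∈ N, ∃ hy : y ∈ D', β ⟨y, hy⟩ = 1) → (N : Set G).Finite) →
  CI G

theorem srs (srg : SrgStmt) : SrsStmt := by
  intro G _ _ _ D D' Q _ α β hD' hle hne hα hβ hk hcore
  by_contra hCI
  have hDf : D.FiniteIndex := Subgroup.finiteIndex_of_le hle
  have hkβ := ker_fin hCI D' β hcore
  have hkα : {x : D | α x = 1}.Finite := by
    refine Set.Finite.of_finite_image (f := fun x : D => (x : G))
      ((hkβ.image fun x : D' => (x : G)).subset ?_) (Subtype.val_injective.injOn)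
    rintro _ ⟨x, hx, rfl⟩
    obtain ⟨h1, h2⟩ := hk x hx
    exact ⟨⟨x, h1⟩, h2, rfl⟩
  have hDfg : Group.FG D := Subgroup.fg_of_index_ne_zero D
  have hQfg : Group.FG Q := Group.fg_of_surjective hα
  have hDinf : Infinite D := by
    by_contra h
    rw [not_infinite_iff_finite] at h
    have : Finite G := finite_of_finiteIndex D
    exact not_finite G
  have hQinf : Infinite Q := by
    by_contra h
    rw [not_infinite_iff_finite] at h
    have h1 : α.ker.FiniteIndex := by
      apply finiteIndex_of_fun (α := Q) _ α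
      intro a b hab
      rw [MonoidHom.mem_ker, map_mul, map_inv, hab, inv_mul_cancel]
    have h2 : Finite α.ker := hkα
    have : Finite D := finite_of_finiteIndex α.ker
    exact not_finite D
  let b : D' →* Q := α.comp (Subgroup.inclusion hle)
  have hab : b.rangeRestrict.ker ≤ β.ker := by
    intro x hx
    have h1 : α (Subgroup.inclusion hle x) = 1 :=
      congrArg (fun z : b.range => (z : Q)) (MonoidHom.mem_ker.mp hx)
    obtain ⟨h2, h3⟩ := hk _ h1
    exact h3
  let φ : b.range →* Q := b.rangeRestrict.liftOfSurjective b.rangeRestrict_surjective ⟨β, hab⟩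
  have hφ : ∀ x, φ (b.rangeRestrict x) = β x := by
    intro x
    exact MonoidHom.liftOfRightInverse_comp_apply _ _ _ _ _
  have hRf : b.range.FiniteIndex := by
    have h1 : Finite (D ⧸ D'.subgroupOf D) := Subgroup.finite_quotient_of_finiteIndex
    choose s hs using hα
    apply finiteIndex_of_fun (α := D ⧸ D'.subgroupOf D) _ fun y : Q =>
      ((s y : D) : D ⧸ D'.subgroupOf D)
    intro y y' h
    rw [QuotientGroup.eq, Subgroup.mem_subgroupOf] at h
    refine ⟨⟨_, h⟩, ?_⟩
    show α (Subgroup.inclusion hle ⟨_, h⟩) = y⁻¹ * y'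
    have h2 : Subgroup.inclusion hle ⟨_, h⟩ = (s y)⁻¹ * s y' := Subtype.ext rfl
    rw [h2, map_mul, map_inv, hs, hs]
  have hRt : b.range ≠ ⊤ := by
    intro htop
    apply hne
    refine le_antisymm hle ?_
    intro g hg
    have h2 : α ⟨g, hg⟩ ∈ b.range := by
      rw [htop]
      exact Subgroup.mem_top _
    obtain ⟨x, hx⟩ := h2
    have h3 : α (Subgroup.inclusion hle x) = α ⟨g, hg⟩ := hx
    have h4 : α (⟨g, hg⟩ * (Subgroup.inclusion hle x)⁻¹) = 1 := by
      rw [map_mul, map_inv, h3, mul_inv_cancel]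
    obtain ⟨h5, -⟩ := hk _ h4
    have h6 := D'.mul_mem h5 x.2
    have h7 : ((⟨g, hg⟩ * (Subgroup.inclusion hle x)⁻¹ : D) : G) * (x : G) = g := by
      show g * ((x : G))⁻¹ * (x : G) = g
      group
    rw [h7] at h6
    exact h6
  have hsur : Function.Surjective φ := by
    intro y
    obtain ⟨x, hx⟩ := hβ y
    exact ⟨b.rangeRestrict x, by rw [hφ, hx]⟩
  have hfin : ∀ N : Subgroup Q, N.Normal → (∀ y ∈ N, ∃ hy : y ∈ b.range, φ ⟨y, hy⟩ = 1) →
      (N : Set Q).Finite := by
    intro N _ hN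
    refine (hkβ.image fun x => b x).subset ?_
    intro y hy
    obtain ⟨⟨x, hx⟩, h2⟩ := hN y hy
    refine ⟨x, ?_, hx⟩
    have h3 : (⟨y, ⟨x, hx⟩⟩ : b.range) = b.rangeRestrict x := Subtype.ext hx.symm
    rw [h3, hφ] at h2
    exact h2
  exact hCI (CI.of_subgroup (ci_lift α hα hkα (srg Q b.range φ hRf hRt hsur hfin)))

end Pool.Agent.ZGO.H45
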