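import Pool.Agent.Helper20_ZGO.FNK
import Pool.Agent.Helper63_ZGO.CUT
import Pool.Agent.Helper92_ZGO.MIN
import Pool.Agent.Helper44_ZGO.Cug
import Pool.Agent.Helper49_ZGO.PRI
import Pool.Agent.Helper91_ZGO.DIV
import Pool.Agent.Helper84_ZGO.PER
import Pool.Agent.Helper44_ZGO.One
import Pool.Agent.Helper68_ZGO.JTI
import Pool.Agent.Helper77_ZGO.JFI
import Pool.Agent.Helper60_ZGO.RTA
import Pool.Agent.Helper60_ZGO.RTB
import Pool.Agent.Helper5_ZGO.RET
import Pool.Agent.Helper17_ZGO.CYC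
import Pool.Agent.Helper55_ZGO.WFI
import Pool.Agent.Helper38_ZGO.EXN
import Pool.Agent.Helper90_ZGO.CLO
import Pool.Agent.Helper67_ZGO.NLT
import Pool.Agent.Helper23_ZGO.JacS
import Pool.Agent.Helper24_ZGO.CTR
import Pool.Agent.Helper65_ZGO.BMN
import Pool.Agent.Helper83_ZGO.FTG
import Pool.Agent.Helper63_ZGO.IDX
import Pool.Agent.Helper44_ZGO.Unb
import Pool.Agent.Helper65_ZGO.LVL
import Pool.Agent.Helper20_ZGO.LCS
import Pool.Agent.Helper83_ZGO.NPL
import Pool.Agent.Helper45_ZGO.QTN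
import Pool.Agent.Helper47_ZGO.CHM
import Pool.Agent.Helper61_ZGO.CNT
import Pool.Agent.Helper62_ZGO.EXT
import Pool.Agent.Helper41_ZGO.INF
import Pool.Agent.Helper64_ZGO.SHI
import Pool.Agent.Helper68_ZGO.THT
import Pool.Agent.Helper26_ZGO.SEV
import Pool.Agent.Helper52_ZGO.ZGN
import Pool.Agent.Helper45_ZGO.SRG
import Pool.Agent.Helper45_ZGO.SRS

/-!
# ZGO: the final theorems without hypotheses
-/

set_option autoImplicit false

namespace Pool.Agent.ZGO.H45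

open Pool.Agent.ZGO

theorem fnk' : FnkStmt := Pool.Agent.ZGO.H20.fnk
theorem cut' : CutStmt := Pool.Agent.ZGO.H63.cut
theorem min' : MinStmt := Pool.Agent.ZGO.H92.min cut'
theorem cug' : CugStmt := Pool.Agent.ZGO.H44.cug
theorem pri' : PriStmt := Pool.Agent.ZGO.H49.pri fnk'
theorem div' : DivStmt := Pool.Agent.ZGO.H91.div
theorem per' : PerStmt := Pool.Agent.ZGO.H84.per fnk'
theorem one' : OneStmt := Pool.Agent.ZGO.H44.one per' fnk'
theorem jti' : JtiStmt := Pool.Agent.ZGO.H68.jti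
theorem jfi' : JfiStmt := Pool.Agent.ZGO.H77.jfi
theorem rta' : RtaStmt := Pool.Agent.ZGO.H60.rta jfi' jti' fnk'
theorem rtb' : RtbStmt := Pool.Agent.ZGO.H60.rtb fnk'
theorem ret' : RetStmt := Pool.Agent.ZGO.H5.ret rta' rtb' jti' fnk'
theorem cyc' : CycStmt := Pool.Agent.ZGO.H17.cyc ret' jfi' jti' fnk'
theorem ctr' : CtrStmt := Pool.Agent.ZGO.H24.ctr Pool.Agent.ZGO.H55.wfi Pool.Agent.ZGO.H38.exn
  Pool.Agent.ZGO.H90.clo Pool.Agent.ZGO.H67.nlt Pool.Agent.ZGO.H23.jacS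
theorem bmn' : BmnStmt := Pool.Agent.ZGO.H65.bmn min' cug' pri' div' per' one' cyc' ctr'
theorem ftg' : FtgStmt := Pool.Agent.ZGO.H83.ftg
theorem idx' : IdxStmt := Pool.Agent.ZGO.H63.idx
theorem unb' : UnbStmt := Pool.Agent.ZGO.H44.unb idx'
theorem lvl' : LvlStmt := Pool.Agent.ZGO.H65.lvl ftg' idx' unb'
theorem npl' : NplStmt := Pool.Agent.ZGO.H83.npl Pool.Agent.ZGO.H20.lcs
theorem qtn' : QtnStmt := qtn
theorem chm' : ChmStmt := Pool.Agent.ZGO.H47.chm
theorem cnt' : CntStmt := Pool.Agent.ZGO.H61.cnt chm'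
theorem ext' : ExtStmt := Pool.Agent.ZGO.H62.ext
theorem inf' : InfStmt := Pool.Agent.ZGO.H41.inf chm' ext' npl' qtn'
theorem shi' : ShiStmt := Pool.Agent.ZGO.H64.shi chm' cnt' inf'
theorem tht' : ThtStmt := Pool.Agent.ZGO.H68.tht
theorem sev' : SevStmt := Pool.Agent.ZGO.H26.sev cnt' tht'

/-- a finitely generated torsion group is not isomorphic to a proper subgroup of finite index -/
theorem zgn' : ZgnStmt := Pool.Agent.ZGO.H52.zgn lvl' shi' sev' bmn'

theorem srg' : SrgStmt := srg zgn'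

theorem srs' : SrsStmt := srs srg'

end Pool.Agent.ZGO.H45
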