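import Pool.Agent.ZGO.StmtsA

/-!
# ZGO, row QTN
-/

set_option autoImplicit false

namespace Pool.Agent.ZGO.H45

open Pool.Agent.ZGO
open scoped commutatorElement

theorem qtn : QtnStmt := by
  intro P _ d ψ N A B hL M
  have hnN : (N M).Normal := hL.nrm M
  have hfN : (N M).FiniteIndex := hL.fin M
  let NA : Subgroup (A M) := (N M).subgroupOf (A M)
  have hNAn : NA.Normal := inferInstanceAs ((N M).subgroupOf (A M)).Normal
  let ψA : A M →* A M := (ψ.comp (A M).subtype).codRestrict (A M) (fun a => hL.aps M a a.2)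
  have hψA : ∀ a : A M, (ψA a : P) = ψ a := fun a => rfl
  have hle : NA ≤ NA.comap ψA := by
    intro a ha
    exact hL.nps M _ ha
  let ψ' : (A M ⧸ NA) →* (A M ⧸ NA) := QuotientGroup.map NA NA ψA hle
  let π : A M →* (A M ⧸ NA) := QuotientGroup.mk' NA
  have hπ1 : ∀ a : A M, π a = 1 ↔ (a : P) ∈ N M := by
    intro a
    exact QuotientGroup.eq_one_iff a
  have hπs : ∀ a : A M, ψ' (π a) = π (ψA a) := fun a => rfl
  have hit : ∀ (i : ℕ) (a : A M), itr ψ' i (π a) = π ((⇑ψA)^[i] a) := by
    intro i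
    induction i with
    | zero => intro a; rfl
    | succ i ih =>
      intro a
      rw [Function.iterate_succ_apply', ← hπs, ← ih]
      rfl
  have hitA : ∀ (i : ℕ) (a : A M), (((⇑ψA)^[i] a : A M) : P) = (⇑ψ)^[i] (a : P) := by
    intro i
    induction i with
    | zero => intro a; rfl
    | succ i ih =>
      intro a
      rw [Function.iterate_succ_apply', Function.iterate_succ_apply', hψA, ih]
  have hfin : Finite (A M ⧸ NA) := by
    have : NA.FiniteIndex := inferInstanceAs ((N M).subgroupOf (A M)).FiniteIndex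
    exact Subgroup.finite_quotient_of_finiteIndex
  refine ⟨A M ⧸ NA, inferInstance, hfin, ψ', π, QuotientGroup.mk'_surjective NA, hπ1, ?_, ?_, ?_, rfl⟩
  · intro a b hb
    have h1 : b = ψA a := Subtype.ext hb
    rw [h1]
    rfl
  · rw [Subgroup.nilpotent_iff_finite_ascending_central_series]
    obtain ⟨n, hn⟩ := hL.nil M
    refine ⟨n, fun i => (itr ψ' i).ker, ⟨?_, ?_⟩, ?_⟩
    · show (MonoidHom.id (A M ⧸ NA)).ker = ⊥
      exact MonoidHom.ker_id
    · intro x i hx g
      obtain ⟨a, rfl⟩ := QuotientGroup.mk'_surjective NA x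
      obtain ⟨b, rfl⟩ := QuotientGroup.mk'_surjective NA g
      have hx' : itr ψ' (i + 1) (π a) = 1 := hx
      rw [hit, hπ1, hitA] at hx'
      have h1 := hL.ser M i b b.2 a hx'
      have h2 : itr ψ' i (π (b * a * b⁻¹ * a⁻¹)) = 1 := by
        rw [hit, hπ1, hitA]
        exact h1
      show itr ψ' i ⁅π a, π b⁆ = 1
      have h3 : ⁅π a, π b⁆ = (π (b * a * b⁻¹ * a⁻¹))⁻¹ := by
        rw [commutatorElement_def, map_mul, map_mul, map_mul, map_inv, map_inv]
        group
      rw [h3, map_inv, h2, inv_one]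
    · rw [eq_top_iff]
      intro x _
      obtain ⟨a, rfl⟩ := QuotientGroup.mk'_surjective NA x
      show itr ψ' n (π a) = 1
      rw [hit, hπ1, hitA]
      exact hn a a.2
  · refine le_trans ?_ (hL.idx M)
    let T : Subgroup P := (N M).comap ψ
    have hT : Finite (T ⧸ (N M).subgroupOf T) := Subgroup.finite_quotient_of_finiteIndex
    have hrep : ∀ x : ψ'.ker, ∃ a : A M, π a = x ∧ (a : P) ∈ T := by
      intro x
      obtain ⟨a, ha⟩ := QuotientGroup.mk'_surjective NA (x : A M ⧸ NA)
      refine ⟨a, ha, ?_⟩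
      have h1 : ψ' (x : A M ⧸ NA) = 1 := x.2
      rw [← ha] at h1
      have h2 : π (ψA a) = 1 := h1
      rw [hπ1] at h2
      exact h2
    choose r hr1 hr2 using hrep
    have hinj : Function.Injective fun x : ψ'.ker =>
        ((⟨(r x : P), hr2 x⟩ : T) : T ⧸ (N M).subgroupOf T) := by
      intro x y hxy
      have h1 := QuotientGroup.eq.mp hxy
      rw [Subgroup.mem_subgroupOf] at h1
      have h2 : (((r x)⁻¹ * r y : A M) : P) ∈ N M := h1
      rw [← hπ1, map_mul, map_inv, hr1, hr1] at h2
      have h3 : (x : A M ⧸ NA) = y := by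
        have h4 := congrArg (fun z => (x : A M ⧸ NA) * z) h2
        simp only [mul_one] at h4
        rw [mul_inv_cancel_left] at h4
        exact h4.symm
      exact Subtype.ext h3
    exact Nat.card_le_card_of_injective _ hinj

end Pool.Agent.ZGO.H45
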