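import Pool.Agent.ZGO.StmtsA
import Pool.Agent.Helper27_ZTO.KER

/-!
# ZGO, row SRB: sections of bounded index along a decreasing sequence

A generalisation of row SRG.
-/

set_option autoImplicit false

namespace Pool.Agent.ZGO.H45

open Pool.Agent.ZGO
open Pool.Agent.ZTO (Ker)
open Pool.Agent.H50.CIG

/-- a homomorphism from a subgroup of finite index has a finite kernel if the normal subgroups of `G`
inside the kernel are finite -/
theorem ker_finite {G : Type} [Group G] [Infinite G] (hCI : ¬ CI G) (H : Subgroup G)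
    [H.FiniteIndex] (φ : H →* G)
    (hN : ∀ N : Subgroup G, N.Normal → (∀ y ∈ N, ∃ hy : y ∈ H, φ ⟨y, hy⟩ = 1) →
      (N : Set G).Finite) : {x : H | φ x = 1}.Finite := by
  let Kr : Subgroup G := φ.ker.map H.subtype
  have mKr : ∀ x : G, x ∈ Kr ↔ ∃ hx : x ∈ H, φ ⟨x, hx⟩ = 1 := by
    intro x
    constructor
    · rintro ⟨y, hy, rfl⟩
      exact ⟨y.2, hy⟩
    · rintro ⟨hx, h1⟩
      exact ⟨⟨x, hx⟩, h1, rfl⟩
  have cKr : ∀ h ∈ H, ∀ k ∈ Kr, h * k * h⁻¹ ∈ Kr := by
    intro h hh k hk
    obtain ⟨hk1, hk2⟩ := (mKr k).mp hk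
    refine (mKr _).mpr ⟨H.mul_mem (H.mul_mem hh hk1) (H.inv_mem hh), ?_⟩
    have h1 : (⟨h * k * h⁻¹, H.mul_mem (H.mul_mem hh hk1) (H.inv_mem hh)⟩ : H) =
        ⟨h, hh⟩ * ⟨k, hk1⟩ * ⟨h, hh⟩⁻¹ := rfl
    rw [h1, map_mul, map_mul, hk2, mul_one, map_inv, mul_inv_cancel]
  let HH : G ⧸ H → Subgroup G := fun q => H.map (MulAut.conj q.out).toMonoidHom
  let KK : G ⧸ H → Subgroup G := fun q => Kr.map (MulAut.conj q.out).toMonoidHom
  have mm : ∀ (T : Subgroup G) (q : G ⧸ H) x,
      x ∈ T.map (MulAut.conj q.out).toMonoidHom ↔ (q.out)⁻¹ * x * q.out ∈ T := by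
    intro T q x
    constructor
    · rintro ⟨y, hy, rfl⟩
      have : (q.out)⁻¹ * ((MulAut.conj q.out).toMonoidHom y) * q.out = y := by
        show (q.out)⁻¹ * (q.out * y * (q.out)⁻¹) * q.out = y
        group
      rw [this]
      exact hy
    · intro hx
      refine ⟨_, hx, ?_⟩
      show q.out * ((q.out)⁻¹ * x * q.out) * (q.out)⁻¹ = x
      group
  have hHH : ∀ q, (HH q).FiniteIndex := by
    intro q
    have : Finite (G ⧸ H) := Subgroup.finite_quotient_of_finiteIndex
    apply finiteIndex_of_fun (α := G ⧸ H) _ fun a => (((q.out)⁻¹ * a * q.out : G) : G ⧸ H)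
    intro a b hab
    rw [QuotientGroup.eq] at hab
    refine (mm H q _).mpr ?_
    have : (q.out)⁻¹ * (a⁻¹ * b) * q.out = ((q.out)⁻¹ * a * q.out)⁻¹ * ((q.out)⁻¹ * b * q.out) := by
      group
    rw [this]
    exact hab
  have hn : ∀ q, ∀ h ∈ HH q, ∀ k ∈ KK q, h * k * h⁻¹ ∈ KK q := by
    intro q h hh k hk
    have hh' := (mm H q h).mp hh
    have hk' := (mm Kr q k).mp hk
    refine (mm Kr q _).mpr ?_
    have h1 := cKr _ hh' _ hk'
    have h2 : (q.out)⁻¹ * h * q.out * ((q.out)⁻¹ * k * q.out) * ((q.out)⁻¹ * h * q.out)⁻¹ =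
        (q.out)⁻¹ * (h * k * h⁻¹) * q.out := by group
    rw [h2] at h1
    exact h1
  let N : Subgroup G := ⨅ q, KK q
  have mN : ∀ x, x ∈ N ↔ ∀ g : G, g⁻¹ * x * g ∈ Kr := by
    intro x
    constructor
    · intro hx g
      have h1 : x ∈ KK (g : G ⧸ H) := (Subgroup.mem_iInf.mp hx) _
      have h1' := (mm Kr _ x).mp h1
      obtain ⟨h, hh⟩ := QuotientGroup.mk_out_eq_mul H g
      have h2 := cKr _ h.2 _ h1'
      have h3 : (h : G) * (((g : G ⧸ H).out)⁻¹ * x * (g : G ⧸ H).out) * (h : G)⁻¹ = g⁻¹ * x * g := by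
        rw [hh]
        group
      rw [h3] at h2
      exact h2
    · intro hx
      refine Subgroup.mem_iInf.mpr fun q => ?_
      exact (mm Kr q x).mpr (hx _)
  have hNn : N.Normal := by
    constructor
    intro n hn g
    rw [mN] at hn ⊢
    intro a
    have h1 := hn (g⁻¹ * a)
    have h2 : (g⁻¹ * a)⁻¹ * n * (g⁻¹ * a) = a⁻¹ * (g * n * g⁻¹) * a := by group
    rw [h2] at h1
    exact h1
  have hNf : (N : Set G).Finite := by
    apply hN N hNn
    intro y hy
    have h1 := (mN y).mp hy 1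
    have h2 : (1 : G)⁻¹ * y * 1 = y := by group
    rw [h2] at h1
    exact (mKr y).mp h1
  have : Finite (G ⧸ H) := Subgroup.finite_quotient_of_finiteIndex
  obtain ⟨q, hq⟩ := exists_le_fc hCI HH KK hHH hn hNf
  have hfc := fc_finite hCI
  have hKf : (Kr : Set G).Finite := by
    have h1 : (KK q : Set G).Finite := hfc.subset hq
    refine (h1.preimage (f := fun x : G => q.out * x * (q.out)⁻¹) ?_).subset ?_
    · intro a _ b _ hab
      have h2 : q.out * a * (q.out)⁻¹ = q.out * b * (q.out)⁻¹ := hab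
      exact mul_left_cancel (mul_right_cancel h2)
    · intro x hx
      show q.out * x * (q.out)⁻¹ ∈ KK q
      refine (mm Kr q _).mpr ?_
      have h2 : (q.out)⁻¹ * (q.out * x * (q.out)⁻¹) * q.out = x := by group
      rw [h2]
      exact hx
  refine (hKf.preimage (f := fun x : H => (x : G)) (Subtype.val_injective.injOn)).subset ?_
  intro x hx
  exact (mKr x).mpr ⟨x.2, hx⟩

/-- SRB -/
def SrbStmt : Prop := ∀ (G : Type) [Group G] [Group.FG G] [Infinite G] (D : ℕ → Subgroup G)
  (Φ : ∀ n, D n →* G), (∀ n, (D n).FiniteIndex) → (∀ n, D (n + 1) ≤ D n) →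
  (∀ k, ∃ n, k ≤ (D n).index) →
  (∀ n, ∀ g : D n, Φ n g = 1 → ∃ h : (g : G) ∈ D (n + 1), Φ (n + 1) ⟨g, h⟩ = 1) →
  (∀ n, ∀ N : Subgroup G, N.Normal → (∀ y ∈ N, ∃ hy : y ∈ D n, Φ n ⟨y, hy⟩ = 1) →
    (N : Set G).Finite) →
  (∃ e, ∀ n0, ∃ n, n0 ≤ n ∧ (Φ n).range.index ≠ 0 ∧ (Φ n).range.index ≤ e) → CI G

theorem srb (srg : SrgStmt) : SrbStmt := by
  intro G _ _ _ D Φ hfi hmono hunb hker hcore hidx
  by_contra hCI
  obtain ⟨e, he⟩ := hidx
  have hanti : ∀ n m, n ≤ m → D m ≤ D n := by
    intro n m h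
    induction h with
    | refl => exact le_refl _
    | step h ih => exact le_trans (hmono _) ih
  have hkk : ∀ n m, n ≤ m → ∀ g : D n, Φ n g = 1 → ∃ h : (g : G) ∈ D m, Φ m ⟨g, h⟩ = 1 := by
    intro n m h
    induction h with
    | refl =>
      intro g hg
      exact ⟨g.2, hg⟩
    | step h ih =>
      intro g hg
      obtain ⟨h1, h2⟩ := ih g hg
      exact hker _ ⟨g, h1⟩ h2
  -- finitely many subgroups of index at most `e`
  obtain ⟨kn, kf, -, -, -, k6, -⟩ := Pool.Agent.ZTO.H27.ker G e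
  have hsub : {K : Subgroup G | Ker G e ≤ K}.Finite := by
    have : Finite (G ⧸ Ker G e) := Subgroup.finite_quotient_of_finiteIndex
    have hfin : (Set.univ : Set (Set (G ⧸ Ker G e))).Finite := Set.toFinite _
    refine Set.Finite.of_finite_image (f := fun K : Subgroup G =>
      ({q | q.out ∈ K} : Set (G ⧸ Ker G e))) (hfin.subset (Set.subset_univ _)) ?_
    intro K hK K' hK' h
    have h0 : ∀ q : G ⧸ Ker G e, q.out ∈ K ↔ q.out ∈ K' := by
      intro q
      have := congrArg (fun s : Set (G ⧸ Ker G e) => q ∈ s) h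
      exact Iff.of_eq this
    have key : ∀ (T : Subgroup G), Ker G e ≤ T → ∀ x : G, x ∈ T ↔ (x : G ⧸ Ker G e).out ∈ T := by
      intro T hT x
      obtain ⟨k, hk⟩ := QuotientGroup.mk_out_eq_mul (Ker G e) x
      rw [hk]
      constructor
      · intro hx
        exact T.mul_mem hx (hT k.2)
      · intro hx
        have h1 := T.mul_mem hx (T.inv_mem (hT k.2))
        rwa [mul_inv_cancel_right] at h1
    ext x
    rw [key K hK, key K' hK', h0]
  -- two places with the same image and different indices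
  let I : Set ℕ := {i | ∃ n, (Φ n).range.index ≠ 0 ∧ (Φ n).range.index ≤ e ∧ (D n).index = i}
  have hI : I.Infinite := by
    apply Set.infinite_of_not_bddAbove
    rintro ⟨b, hb⟩
    obtain ⟨n1, hn1⟩ := hunb (b + 1)
    obtain ⟨n, hn, h1, h2⟩ := he n1
    have h3 := hb ⟨n, h1, h2, rfl⟩
    have h4 : (D n1).index ≤ (D n).index := by
      have := hfi n
      exact Nat.le_of_dvd (Nat.pos_of_ne_zero Subgroup.FiniteIndex.index_ne_zero)
        (Subgroup.index_dvd_of_le (hanti _ _ hn))
    omega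
  have hI' : Infinite I := hI.to_subtype
  have : Finite {K : Subgroup G | Ker G e ≤ K} := hsub
  choose ν hν using fun i : I => i.2
  obtain ⟨i, j, hij, hf⟩ := Finite.exists_ne_map_eq_of_infinite
    (fun i : I => (⟨(Φ (ν i)).range, k6 _ (hν i).1 (hν i).2.1⟩ : {K : Subgroup G | Ker G e ≤ K}))
  have hf' : (Φ (ν i)).range = (Φ (ν j)).range := congrArg Subtype.val hf
  have main : ∀ n m, (D n).index < (D m).index → (Φ n).range.index ≠ 0 →
      (Φ n).range = (Φ m).range → False := by
    intro n m hlt hn0 hr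
    have hnm : n ≤ m := by
      by_contra h
      have h1 := hanti m n (by omega)
      have := hfi n
      have h2 := Nat.le_of_dvd (Nat.pos_of_ne_zero Subgroup.FiniteIndex.index_ne_zero)
        (Subgroup.index_dvd_of_le h1)
      omega
    have hle := hanti n m hnm
    let K : Subgroup G := (Φ n).range
    have hKf : K.FiniteIndex := ⟨hn0⟩
    let a : D m →* K := (Φ m).codRestrict K (fun x => by
      show Φ m x ∈ (Φ n).range
      rw [hr]
      exact ⟨x, rfl⟩)
    let b : D m →* K := ((Φ n).comp (Subgroup.inclusion hle)).codRestrict K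
      (fun x => ⟨_, rfl⟩)
    have ha : Function.Surjective a := by
      intro y
      have hy : (y : G) ∈ (Φ m).range := by
        rw [← hr]
        exact y.2
      obtain ⟨x, hx⟩ := hy
      exact ⟨x, Subtype.ext hx⟩
    have hab : b.rangeRestrict.ker ≤ a.ker := by
      intro x hx
      have h1 : Φ n (Subgroup.inclusion hle x) = 1 := by
        have h2 := congrArg (fun z : b.range => ((z : K) : G)) (MonoidHom.mem_ker.mp hx)
        exact h2
      obtain ⟨h2, h3⟩ := hkk n m hnm _ h1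
      exact Subtype.ext h3
    let φ : b.range →* K := b.rangeRestrict.liftOfSurjective b.rangeRestrict_surjective ⟨a, hab⟩
    have hφ : ∀ x, φ (b.rangeRestrict x) = a x := by
      intro x
      exact MonoidHom.liftOfRightInverse_comp_apply _ _ _ _ _
    have hKinf : Infinite K := by
      by_contra h
      rw [not_infinite_iff_finite] at h
      have : Finite G := finite_of_finiteIndex K
      exact not_finite G
    have hKfg : Group.FG K := Subgroup.fg_of_index_ne_zero K
    have hRf : b.range.FiniteIndex := by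
      have h1 : Finite (D n ⧸ (D m).subgroupOf (D n)) := by
        have := hfi m
        exact Subgroup.finite_quotient_of_finiteIndex
      choose s hs using fun y : K => y.2
      apply finiteIndex_of_fun (α := D n ⧸ (D m).subgroupOf (D n)) _ fun y : K =>
        ((s y : D n) : D n ⧸ (D m).subgroupOf (D n))
      intro y y' h
      rw [QuotientGroup.eq, Subgroup.mem_subgroupOf] at h
      refine ⟨⟨_, h⟩, ?_⟩
      apply Subtype.ext
      show Φ n (Subgroup.inclusion hle ⟨_, h⟩) = ((y⁻¹ * y' : K) : G)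
      have h2 : Subgroup.inclusion hle ⟨_, h⟩ = (s y)⁻¹ * s y' := Subtype.ext rfl
      rw [h2, map_mul, map_inv, hs, hs]
      rfl
    have hRt : b.range ≠ ⊤ := by
      intro htop
      have h1 : D n ≤ D m := by
        intro g hg
        have h2 : (⟨Φ n ⟨g, hg⟩, ⟨⟨g, hg⟩, rfl⟩⟩ : K) ∈ b.range := by
          rw [htop]
          exact Subgroup.mem_top _
        obtain ⟨x, hx⟩ := h2
        have h3 : Φ n (Subgroup.inclusion hle x) = Φ n ⟨g, hg⟩ := congrArg Subtype.val hx
        have h4 : Φ n (⟨g, hg⟩ * (Subgroup.inclusion hle x)⁻¹) = 1 := by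
          rw [map_mul, map_inv, h3, mul_inv_cancel]
        obtain ⟨h5, -⟩ := hkk n m hnm _ h4
        have h6 := (D m).mul_mem h5 x.2
        have h7 : ((⟨g, hg⟩ * (Subgroup.inclusion hle x)⁻¹ : D n) : G) * (x : G) = g := by
          show g * ((x : G))⁻¹ * (x : G) = g
          group
        rw [h7] at h6
        exact h6
      have h2 : D n = D m := le_antisymm h1 hle
      rw [h2] at hlt
      exact lt_irrefl _ hlt
    have hsur : Function.Surjective φ := by
      intro y
      obtain ⟨x, hx⟩ := ha y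
      exact ⟨b.rangeRestrict x, by rw [hφ, hx]⟩
    have hfin : ∀ N : Subgroup K, N.Normal → (∀ y ∈ N, ∃ hy : y ∈ b.range, φ ⟨y, hy⟩ = 1) →
        (N : Set K).Finite := by
      intro N _ hN
      have := hfi m
      have h1 := ker_finite hCI (D m) (Φ m) (hcore m)
      refine (h1.image fun x => b x).subset ?_
      intro y hy
      obtain ⟨⟨x, hx⟩, h2⟩ := hN y hy
      refine ⟨x, ?_, hx⟩
      have h3 : (⟨y, ⟨x, hx⟩⟩ : b.range) = b.rangeRestrict x := Subtype.ext hx.symm
      rw [h3, hφ] at h2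
      exact congrArg Subtype.val h2
    have hci := srg K b.range φ hRf hRt hsur hfin
    exact hCI (CI.of_subgroup hci)
  have hne : (D (ν i)).index ≠ (D (ν j)).index := by
    intro h
    apply hij
    apply Subtype.ext
    rw [← (hν i).2.2, ← (hν j).2.2, h]
  rcases lt_or_gt_of_ne hne with h | h
  · exact main _ _ h (hν i).1 hf'
  · exact main _ _ h (hν j).1 hf'.symm

end Pool.Agent.ZGO.H45
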